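import Pool.Agent.Y386.SG.Final

/-!
# The two-player game of SET with `k` values is PSPACE-complete for every `k ≥ 3`, even if the
number of attributes is polylogarithmic in the number of cards
-/

set_option autoImplicit false

namespace Pool.Agent.Results.MP_cf31f8_lc.AllNumbersOfValues

open Pool.Agent.NPC Pool.Agent.H623R2.PS
open Pool.Agent.Y386.SG

/-- For every `k ≥ 3`: (1) deciding the winner of the two-player game of SET with `k` values is
complete for `PSPACE` under polynomial-time many-one reductions; (2) it is in `P` if and only if
every language in `PSPACE` is; (3) every language in `PSPACE` has a reduction to it, computable in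
polynomial time, all of whose values are collections `C` of cards that satisfy `Nice C`: the number
of attributes is at most `(4 k + 1) ^ 2 (log |C| + 1) ^ 2`, the cards can be coloured with `k`
colours such that every Set has all the colours, two different Sets have at most one common card,
and in every Set at most two cards belong to other Sets. -/
theorem result (k : ℕ) (hk : 3 ≤ k) :
    PSPACEComplete (lang (SetGame k)) ∧
      (InP (lang (SetGame k)) ↔ ∀ L : Set (List Bool), InPSPACE L → InP L) ∧
      ∀ L : Set (List Bool), InPSPACE L → ∃ f : List Bool → ℕ × List (List ℕ),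
        PolyTime (fun x => bits (f x)) ∧ ∀ x, ∃ (n : ℕ) (C : List (Fin n → Fin k)),
          1 ≤ n ∧ C.Nodup ∧ f x = (n, C.map cardCode) ∧ Nice C ∧
            (x ∈ L ↔ SetWins {c | c ∈ C}) := by
  obtain ⟨m, rfl⟩ : ∃ m, k = m + 3 := ⟨k - 3, by omega⟩
  have h1 : InPSPACE (lang (SetGame (m + 3))) := setGame_mem (by omega)
  refine ⟨⟨h1, setGame_hard m⟩, ⟨fun h L hL => InP.of_reduces (setGame_hard m L hL) h,
    fun h => h _ h1⟩, fun L hL => ?_⟩
  obtain ⟨f, hf, hf'⟩ := reduction m hL
  exact ⟨f, polyTime_bits hf, hf'⟩

end Pool.Agent.Results.MP_cf31f8_lc.AllNumbersOfValues
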